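import Pool.Agent.H242.GX.Stm

open Set Filter Topology
open scoped ContDiff
open Pool.Agent.H242.GX

namespace Pool.Agent.H161.GX

lemma ip_nu (z : ℂ) (α : ℝ) : ip z (nu α) = z.re * Real.sin α - z.im * Real.cos α := by
  simp only [ip, nu]; ring

lemma ip_e (z : ℂ) (α : ℝ) : ip z (e α) = z.re * Real.cos α + z.im * Real.sin α := rfl

/-- The second derivative test at a maximum. -/
lemma dd_nonpos {f : ℝ → ℝ} {x₀ : ℝ} (hc : ContinuousAt f x₀) (h : IsLocalMax f x₀) :
    deriv (deriv f) x₀ ≤ 0 := by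
  by_contra hn
  rw [not_le] at hn
  have h1 := isLocalMin_of_deriv_deriv_pos hn h.deriv_eq_zero hc
  have h2 : f =ᶠ[𝓝 x₀] fun _ => f x₀ := by
    filter_upwards [h, h1] with x hx hx'
    exact le_antisymm hx hx'
  have h3 := h2.deriv.deriv_eq
  rw [h3] at hn
  simp at hn

/-- The local form of the curve of the maximum points. -/
lemma local_max {γ : ℝ → ℂ} {M : ℝ → ℂ} {K : Set ℂ}
    (hγ : ContDiff ℝ ∞ γ) (hper : Function.Periodic γ 1) (hinj : InjOn γ (Ico 0 1))
    (hγK : ∀ t, γ t ∈ K)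
    (hex : ∀ α, ∃ t, γ t = M α)
    (hMax : ∀ α, ∀ z ∈ K, ip z (nu α) ≤ ip (M α) (nu α))
    (hun : ∀ α, ∀ z ∈ K, (∀ w ∈ K, ip w (nu α) ≤ ip z (nu α)) → z = M α)
    (hz : ∀ α t, γ t = M α → ip (deriv γ t) (nu α) = 0)
    (hc : ∀ α t, γ t = M α → ip (deriv (deriv γ) t) (nu α) ≠ 0) (α₀ : ℝ) :
    ∃ ψ : ℝ → ℝ, ContDiffAt ℝ ∞ ψ α₀ ∧ ∀ᶠ α in 𝓝 α₀, γ (ψ α) = M α := by
  obtain ⟨t₀, ht₀⟩ := hex α₀
  have hex' : ∀ α, ∃ t, t ∈ Icc (t₀ - 1 / 2) (t₀ + 1 / 2) ∧ γ t = M α := by
    intro α
    obtain ⟨t, ht⟩ := hex α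
    obtain ⟨y, hy, hy'⟩ := hper.exists_mem_Ico one_pos t (t₀ - 1 / 2)
    exact ⟨y, ⟨hy.1, by linarith [hy.2]⟩, by rw [← hy', ht]⟩
  choose s hsI hs using hex'
  have hfr : ∀ t : ℝ, γ (Int.fract t) = γ t := by
    intro t
    have := hper.sub_zsmul_eq (x := t) ⌊t⌋
    rw [← this]
    congr 1
    rw [zsmul_eq_mul, mul_one]
    rfl
  have huniq : ∀ t ∈ Icc (t₀ - 1 / 2) (t₀ + 1 / 2), γ t = γ t₀ → t = t₀ := by
    intro t ht h
    have h1 : Int.fract t = Int.fract t₀ := by
      apply hinj ⟨Int.fract_nonneg _, Int.fract_lt_one _⟩ ⟨Int.fract_nonneg _, Int.fract_lt_one _⟩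
      rw [hfr, hfr, h]
    have h2 : t - t₀ = ((⌊t⌋ - ⌊t₀⌋ : ℤ) : ℝ) := by
      have h3 := Int.floor_add_fract t
      have h4 := Int.floor_add_fract t₀
      push_cast
      linarith
    have h5 : (⌊t⌋ - ⌊t₀⌋ : ℤ) < 1 := by
      have : ((⌊t⌋ - ⌊t₀⌋ : ℤ) : ℝ) < 1 := by rw [← h2]; linarith [ht.2]
      exact_mod_cast this
    have h6 : (-1 : ℤ) < (⌊t⌋ - ⌊t₀⌋ : ℤ) := by
      have : (-1 : ℝ) < ((⌊t⌋ - ⌊t₀⌋ : ℤ) : ℝ) := by rw [← h2]; linarith [ht.1]
      exact_mod_cast this
    have h7 : (⌊t⌋ - ⌊t₀⌋ : ℤ) = 0 := by omega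
    rw [h7] at h2
    simp at h2
    linarith
  have hst : Tendsto s (𝓝 α₀) (𝓝 t₀) := by
    apply (isCompact_Icc (a := t₀ - 1 / 2) (b := t₀ + 1 / 2)).tendsto_nhds_of_unique_mapClusterPt
      (Eventually.of_forall hsI)
    intro x hx hcl
    rw [mapClusterPt_iff_ultrafilter] at hcl
    obtain ⟨U, hU, hUx⟩ := hcl
    apply huniq x hx
    rw [ht₀]
    apply hun α₀ _ (hγK x)
    intro w hw
    have h1 : Tendsto (fun α => ip w (nu α)) U (𝓝 (ip w (nu α₀))) := by
      have : Continuous (fun α => ip w (nu α)) := by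
        simp only [ip_nu]
        fun_prop
      exact (this.tendsto α₀).mono_left hU
    have h2 : Tendsto (fun α => ip (γ (s α)) (nu α)) U (𝓝 (ip (γ x) (nu α₀))) := by
      have hcont : Continuous (fun q : ℝ × ℝ => ip (γ q.1) (nu q.2)) := by
        simp only [ip_nu]
        have := hγ.continuous
        fun_prop
      have h3 : Tendsto (fun α => (s α, α)) U (𝓝 (x, α₀)) := hUx.prodMk_nhds hU
      exact (hcont.tendsto (x, α₀)).comp h3
    refine le_of_tendsto_of_tendsto' h1 h2 fun α => ?_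
    rw [hs α]
    exact hMax α w hw
  -- the implicit function
  have hγ1 : ContDiff ℝ ∞ (deriv γ) := (contDiff_infty_iff_deriv.1 hγ).2
  have hγ2 : Differentiable ℝ (deriv γ) := hγ1.differentiable (by simp)
  set F : ℝ × ℝ → ℝ := fun x => ip (deriv γ x.2) (nu x.1) with hFdef
  have hF : ContDiff ℝ ∞ F := by
    simp only [hFdef, ip_nu]
    have h1 : ContDiff ℝ ∞ (fun x : ℝ × ℝ => (deriv γ x.2).re) :=
      Complex.reCLM.contDiff.comp (hγ1.comp contDiff_snd)
    have h2 : ContDiff ℝ ∞ (fun x : ℝ × ℝ => (deriv γ x.2).im) :=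
      Complex.imCLM.contDiff.comp (hγ1.comp contDiff_snd)
    have h3 : ContDiff ℝ ∞ (fun x : ℝ × ℝ => Real.sin x.1) := Real.contDiff_sin.comp contDiff_fst
    have h4 : ContDiff ℝ ∞ (fun x : ℝ × ℝ => Real.cos x.1) := Real.contDiff_cos.comp contDiff_fst
    exact (h1.mul h3).sub (h2.mul h4)
  have hder : HasDerivAt (fun t => F (α₀, t)) (ip (deriv (deriv γ) t₀) (nu α₀)) t₀ := by
    simp only [hFdef, ip_nu]
    have h0 := (hγ2 t₀).hasDerivAt
    have h1 : HasDerivAt (fun t => (deriv γ t).re) (deriv (deriv γ) t₀).re t₀ :=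
      Complex.reCLM.hasFDerivAt.comp_hasDerivAt t₀ h0
    have h2 : HasDerivAt (fun t => (deriv γ t).im) (deriv (deriv γ) t₀).im t₀ :=
      Complex.imCLM.hasFDerivAt.comp_hasDerivAt t₀ h0
    exact (h1.mul_const _).sub (h2.mul_const _)
  have hder2 : fderiv ℝ F (α₀, t₀) (0, 1) = ip (deriv (deriv γ) t₀) (nu α₀) := by
    have h0 : HasFDerivAt F (fderiv ℝ F (α₀, t₀)) (α₀, t₀) :=
      (hF.differentiable (by simp) _).hasFDerivAt
    have h1 : HasDerivAt (fun t : ℝ => (α₀, t)) ((0 : ℝ), (1 : ℝ)) t₀ :=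
      (hasDerivAt_const t₀ α₀).prodMk (hasDerivAt_id t₀)
    exact (h0.comp_hasDerivAt t₀ h1).unique hder
  have hinv : (fderiv ℝ F (α₀, t₀) ∘L .inr ℝ ℝ ℝ).IsInvertible := by
    refine ⟨ContinuousLinearEquiv.unitsEquivAut ℝ (Units.mk0 _ (hc α₀ t₀ ht₀)), ?_⟩
    ext
    simp [hder2]
  have hFa : ContDiffAt ℝ ∞ F (α₀, t₀) := hF.contDiffAt
  refine ⟨hFa.implicitFunction (by simp) hinv, hFa.contDiffAt_implicitFunction (by simp) hinv, ?_⟩
  have h1 := hFa.eventually_apply_eq_iff_implicitFunction (by simp) hinv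
  have h2 : Tendsto (fun α => (α, s α)) (𝓝 α₀) (𝓝 (α₀, t₀)) := tendsto_id.prodMk_nhds hst
  filter_upwards [h2.eventually h1] with α hα
  have h3 : F (α, s α) = F (α₀, t₀) := by
    simp only [hFdef]
    rw [hz α (s α) (hs α), hz α₀ t₀ ht₀]
  rw [hα.1 h3]
  exact hs α

theorem gx_SUPP : S_SUPP := by
  intro K γ hK hS hint hγ hper hinj hd hran hcurv
  have hne : K.Nonempty := hint.mono interior_subset
  have hγ1 : ContDiff ℝ ∞ (deriv γ) := (contDiff_infty_iff_deriv.1 hγ).2
  have hγ0 : Differentiable ℝ γ := hγ.differentiable (by simp)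
  have hγ2 : Differentiable ℝ (deriv γ) := hγ1.differentiable (by simp)
  have hre : ∀ t, HasDerivAt (fun t => (γ t).re) (deriv γ t).re t := fun t =>
    Complex.reCLM.hasFDerivAt.comp_hasDerivAt t (hγ0 t).hasDerivAt
  have him : ∀ t, HasDerivAt (fun t => (γ t).im) (deriv γ t).im t := fun t =>
    Complex.imCLM.hasFDerivAt.comp_hasDerivAt t (hγ0 t).hasDerivAt
  have hre' : ∀ t, HasDerivAt (fun t => (deriv γ t).re) (deriv (deriv γ) t).re t := fun t =>
    Complex.reCLM.hasFDerivAt.comp_hasDerivAt t (hγ2 t).hasDerivAt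
  have him' : ∀ t, HasDerivAt (fun t => (deriv γ t).im) (deriv (deriv γ) t).im t := fun t =>
    Complex.imCLM.hasFDerivAt.comp_hasDerivAt t (hγ2 t).hasDerivAt
  have hmax : ∀ v : ℂ, ∃ m ∈ K, ∀ z ∈ K, ip z v ≤ ip m v := by
    intro v
    have hcont : ContinuousOn (fun z : ℂ => ip z v) K := by
      unfold ip
      have : Continuous fun z : ℂ => z.re * v.re + z.im * v.im := by fun_prop
      exact this.continuousOn
    obtain ⟨m, hm, h⟩ := hK.exists_isMaxOn hne hcont
    exact ⟨m, hm, fun z hz => h hz⟩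
  choose M hMK hM using hmax
  obtain ⟨p, hp⟩ : ∃ p : ℝ → ℝ, ∀ α, p α = ip (M (nu α)) (nu α) := ⟨_, fun _ => rfl⟩
  have hle : ∀ α, ∀ z ∈ K, ip z (nu α) ≤ p α := fun α z hz => by rw [hp]; exact hM _ z hz
  have hfr : ∀ (α : ℝ) (z : ℂ), ip z (nu α) = p α → z ∉ interior K := by
    intro α z he hzi
    have h1 : ∀ᶠ s : ℝ in 𝓝 0, z + s • nu α ∈ interior K := by
      have hc : ContinuousAt (fun s : ℝ => z + s • nu α) 0 := by fun_prop
      apply hc.eventually_mem
      apply isOpen_interior.mem_nhds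
      simpa using hzi
    have h2 : ∀ᶠ s : ℝ in 𝓝[>] 0, z + s • nu α ∈ interior K := h1.filter_mono nhdsWithin_le_nhds
    obtain ⟨s, hs, hs0⟩ := (h2.and self_mem_nhdsWithin).exists
    have h3 := hle α _ (interior_subset hs)
    have h4 : ip (z + s • nu α) (nu α) = ip z (nu α) + s := by
      simp only [ip, nu, Complex.add_re, Complex.add_im, Complex.real_smul, Complex.mul_re,
        Complex.mul_im, Complex.ofReal_re, Complex.ofReal_im]
      linear_combination s * Real.sin_sq_add_cos_sq α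
    have h5 : (0 : ℝ) < s := hs0
    linarith
  have huniq : ∀ (α : ℝ) (z w : ℂ), z ∈ K → w ∈ K → ip z (nu α) = p α → ip w (nu α) = p α →
      z = w := by
    intro α z w hz hw hez hew
    by_contra hne'
    have h1 : (1 / 2 : ℝ) • z + (1 / 2 : ℝ) • w ∈ interior K :=
      hS hz hw hne' (by norm_num) (by norm_num) (by norm_num)
    refine hfr α _ ?_ h1
    have h2 : ip ((1 / 2 : ℝ) • z + (1 / 2 : ℝ) • w) (nu α) =
        (1 / 2) * ip z (nu α) + (1 / 2) * ip w (nu α) := by
      simp only [ip, Complex.add_re, Complex.add_im, Complex.real_smul, Complex.mul_re,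
        Complex.mul_im, Complex.ofReal_re, Complex.ofReal_im]
      ring
    rw [h2, hez, hew]; ring
  have hγK : ∀ t, γ t ∈ K := fun t => hK.isClosed.frontier_subset (hran ▸ mem_range_self t)
  have hex : ∀ α, ∃ t, γ t = M (nu α) := by
    intro α
    have h1 : M (nu α) ∈ frontier K := by
      rw [hK.isClosed.frontier_eq]
      exact ⟨hMK _, hfr α _ (hp α).symm⟩
    rw [← hran] at h1
    exact h1
  have hfd : ∀ α t, HasDerivAt (fun s => ip (γ s) (nu α)) (ip (deriv γ t) (nu α)) t := by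
    intro α t
    simp only [ip_nu]
    exact ((hre t).mul_const _).sub ((him t).mul_const _)
  have hfd' : ∀ α t, HasDerivAt (fun s => ip (deriv γ s) (nu α)) (ip (deriv (deriv γ) t) (nu α)) t := by
    intro α t
    simp only [ip_nu]
    exact ((hre' t).mul_const _).sub ((him' t).mul_const _)
  have hlm : ∀ α t, γ t = M (nu α) → IsLocalMax (fun s => ip (γ s) (nu α)) t := by
    intro α t ht
    refine Eventually.of_forall fun s => ?_
    simp only
    rw [ht, ← hp]
    exact hle α _ (hγK s)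
  have hz : ∀ α t, γ t = M (nu α) → ip (deriv γ t) (nu α) = 0 := fun α t ht =>
    (hlm α t ht).hasDerivAt_eq_zero (hfd α t)
  have hc0 : ∀ α t, γ t = M (nu α) → ip (deriv (deriv γ) t) (nu α) ≤ 0 := by
    intro α t ht
    have h1 := dd_nonpos (hfd α t).continuousAt (hlm α t ht)
    have h2 : deriv (fun s => ip (γ s) (nu α)) = fun s => ip (deriv γ s) (nu α) :=
      funext fun s => (hfd α s).deriv
    rw [h2, (hfd' α t).deriv] at h1
    exact h1
  have hc : ∀ α t, γ t = M (nu α) → ip (deriv (deriv γ) t) (nu α) ≠ 0 := by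
    intro α t ht h0
    have h1 := hz α t ht
    rw [ip_nu] at h0 h1
    apply hcurv t
    set a := (deriv γ t).re
    set b := (deriv γ t).im
    set c := (deriv (deriv γ) t).re
    set d := (deriv (deriv γ) t).im
    have hsc := Real.sin_sq_add_cos_sq α
    have ha : a = (a * Real.cos α + b * Real.sin α) * Real.cos α := by
      linear_combination (-a) * hsc + Real.sin α * h1
    have hb : b = (a * Real.cos α + b * Real.sin α) * Real.sin α := by
      linear_combination (-b) * hsc - Real.cos α * h1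
    have hc' : c = (c * Real.cos α + d * Real.sin α) * Real.cos α := by
      linear_combination (-c) * hsc + Real.sin α * h0
    have hd' : d = (c * Real.cos α + d * Real.sin α) * Real.sin α := by
      linear_combination (-d) * hsc - Real.cos α * h0
    obtain ⟨l, hl⟩ : ∃ l, l = a * Real.cos α + b * Real.sin α := ⟨_, rfl⟩
    obtain ⟨m, hm⟩ : ∃ m, m = c * Real.cos α + d * Real.sin α := ⟨_, rfl⟩
    rw [← hl] at ha hb
    rw [← hm] at hc' hd'
    rw [ha, hb, hc', hd']
    ring
  have hloc := local_max (M := fun α => M (nu α)) (K := K) hγ hper hinj hγK hex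
    (fun α z hz' => hM _ z hz')
    (fun α z hz' h => by
      apply huniq α z _ hz' (hMK _) _ (hp α).symm
      apply le_antisymm (hle α z hz')
      rw [hp]
      exact h _ (hMK _)) hz hc
  have hsm : ContDiff ℝ ∞ p := by
    rw [contDiff_iff_contDiffAt]
    intro α₀
    obtain ⟨ψ, hψ, hev⟩ := hloc α₀
    have h1 : ContDiffAt ℝ ∞ (fun α => ip (γ (ψ α)) (nu α)) α₀ := by
      simp only [ip_nu]
      have h2 : ContDiffAt ℝ ∞ (fun α => γ (ψ α)) α₀ := hγ.contDiffAt.comp α₀ hψ
      have h3 : ContDiffAt ℝ ∞ (fun α => (γ (ψ α)).re) α₀ :=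
        Complex.reCLM.contDiff.contDiffAt.comp α₀ h2
      have h4 : ContDiffAt ℝ ∞ (fun α => (γ (ψ α)).im) α₀ :=
        Complex.imCLM.contDiff.contDiffAt.comp α₀ h2
      exact (h3.mul Real.contDiff_sin.contDiffAt).sub (h4.mul Real.contDiff_cos.contDiffAt)
    refine h1.congr_of_eventuallyEq ?_
    filter_upwards [hev] with α hα
    rw [hp, hα]
  have hp0 : Differentiable ℝ p := hsm.differentiable (by simp)
  have hnud : ∀ (z : ℂ) (α : ℝ), HasDerivAt (fun α => ip z (nu α)) (ip z (e α)) α := by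
    intro z α
    simp only [ip_nu, ip_e]
    have h1 := ((Real.hasDerivAt_sin α).const_mul z.re).sub ((Real.hasDerivAt_cos α).const_mul z.im)
    have h2 : z.re * Real.cos α - z.im * -Real.sin α = z.re * Real.cos α + z.im * Real.sin α := by
      ring
    rw [h2] at h1
    exact h1
  have hp1 : ∀ α, deriv p α = ip (M (nu α)) (e α) := by
    intro α₀
    have h1 : IsLocalMin (fun α => p α - ip (M (nu α₀)) (nu α)) α₀ := by
      refine Eventually.of_forall fun α => ?_
      simp only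
      have h2 := hle α _ (hMK (nu α₀))
      have h3 := hp α₀
      linarith
    have h2 := h1.hasDerivAt_eq_zero ((hp0 α₀).hasDerivAt.sub (hnud (M (nu α₀)) α₀))
    linarith
  have hpos : ∀ α, 0 < p α + deriv (deriv p) α := by
    intro α₀
    obtain ⟨ψ, hψ, hev⟩ := hloc α₀
    have hψ' : HasDerivAt ψ (deriv ψ α₀) α₀ := (hψ.differentiableAt (by simp)).hasDerivAt
    have ht : γ (ψ α₀) = M (nu α₀) := hev.self_of_nhds
    set t := ψ α₀ with htdef
    have hr : HasDerivAt (fun α => (γ (ψ α)).re) ((deriv γ t).re * deriv ψ α₀) α₀ :=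
      (hre t).comp α₀ hψ'
    have hi : HasDerivAt (fun α => (γ (ψ α)).im) ((deriv γ t).im * deriv ψ α₀) α₀ :=
      (him t).comp α₀ hψ'
    have hr' : HasDerivAt (fun α => (deriv γ (ψ α)).re) ((deriv (deriv γ) t).re * deriv ψ α₀) α₀ :=
      (hre' t).comp α₀ hψ'
    have hi' : HasDerivAt (fun α => (deriv γ (ψ α)).im) ((deriv (deriv γ) t).im * deriv ψ α₀) α₀ :=
      (him' t).comp α₀ hψ'
    have h1 : HasDerivAt (fun α => ip (γ (ψ α)) (e α))
        ((deriv γ t).re * deriv ψ α₀ * Real.cos α₀ + (γ t).re * (-Real.sin α₀) +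
          ((deriv γ t).im * deriv ψ α₀ * Real.sin α₀ + (γ t).im * Real.cos α₀)) α₀ := by
      simp only [ip_e]
      exact (hr.mul (Real.hasDerivAt_cos α₀)).add (hi.mul (Real.hasDerivAt_sin α₀))
    have h2 : deriv (deriv p) α₀ = (deriv γ t).re * deriv ψ α₀ * Real.cos α₀ +
        (γ t).re * (-Real.sin α₀) +
          ((deriv γ t).im * deriv ψ α₀ * Real.sin α₀ + (γ t).im * Real.cos α₀) := by
      rw [← h1.deriv]
      apply EventuallyEq.deriv_eq
      filter_upwards [hev] with α hα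
      rw [hp1, hα]
    have h3 : HasDerivAt (fun α => ip (deriv γ (ψ α)) (nu α))
        ((deriv (deriv γ) t).re * deriv ψ α₀ * Real.sin α₀ + (deriv γ t).re * Real.cos α₀ -
          ((deriv (deriv γ) t).im * deriv ψ α₀ * Real.cos α₀ + (deriv γ t).im * (-Real.sin α₀))) α₀ := by
      simp only [ip_nu]
      exact (hr'.mul (Real.hasDerivAt_sin α₀)).sub (hi'.mul (Real.hasDerivAt_cos α₀))
    have h4 : (deriv (deriv γ) t).re * deriv ψ α₀ * Real.sin α₀ + (deriv γ t).re * Real.cos α₀ -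
          ((deriv (deriv γ) t).im * deriv ψ α₀ * Real.cos α₀ + (deriv γ t).im * (-Real.sin α₀)) = 0 := by
      rw [← h3.deriv]
      have h5 : (fun α => ip (deriv γ (ψ α)) (nu α)) =ᶠ[𝓝 α₀] fun _ => (0 : ℝ) := by
        filter_upwards [hev] with α hα
        exact hz α (ψ α) hα
      rw [h5.deriv_eq]
      simp
    have hpα : p α₀ = (γ t).re * Real.sin α₀ - (γ t).im * Real.cos α₀ := by
      rw [hp, ← ht, ip_nu]
    have hz0 := hz α₀ t ht
    have hc1 := hc0 α₀ t ht
    have hc2 := hc α₀ t ht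
    rw [ip_nu] at hz0 hc1 hc2
    have hdt := hd t
    set a := (deriv γ t).re with hadef
    set b := (deriv γ t).im with hbdef
    set c := (deriv (deriv γ) t).re
    set d := (deriv (deriv γ) t).im
    set S := Real.sin α₀
    set C := Real.cos α₀
    set q := deriv ψ α₀
    have hsc : S ^ 2 + C ^ 2 = 1 := Real.sin_sq_add_cos_sq α₀
    have hl : a * C + b * S ≠ 0 := by
      intro hl
      apply hdt
      have ha : a = 0 := by linear_combination (-a) * hsc + S * hz0 + C * hl
      have hb : b = 0 := by linear_combination (-b) * hsc - C * hz0 + S * hl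
      apply Complex.ext
      · exact ha
      · exact hb
    have hcneg : c * S - d * C < 0 := lt_of_le_of_ne hc1 hc2
    rw [hpα, h2]
    have h6 : ((γ t).re * S - (γ t).im * C + (a * q * C + (γ t).re * -S + (b * q * S + (γ t).im * C)))
        * (c * S - d * C) = -(a * C + b * S) ^ 2 := by
      linear_combination (a * C + b * S) * h4
    have h7 : 0 < (a * C + b * S) ^ 2 := by positivity
    by_contra hcon
    rw [not_lt] at hcon
    have h8 := mul_nonneg_of_nonpos_of_nonpos hcon hcneg.le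
    rw [h6] at h8
    linarith
  refine ⟨p, ⟨hsm, ?_, hpos⟩, ?_⟩
  · intro α
    have : nu (α + 2 * Real.pi) = nu α := by
      simp [nu]
    rw [hp, hp, this]
  · apply Set.Subset.antisymm
    · intro z hz' α
      exact hle α z hz'
    · intro z hz'
      by_contra hzK
      obtain ⟨f, u, hf1, hf2⟩ := geometric_hahn_banach_closed_point hS.convex hK.isClosed hzK
      have hf : ∀ w : ℂ, f w = w.re * f 1 + w.im * f Complex.I := by
        intro w
        have h1 : w = w.re • (1 : ℂ) + w.im • Complex.I := by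
          apply Complex.ext <;> simp
        calc f w = f (w.re • (1 : ℂ) + w.im • Complex.I) := by rw [← h1]
          _ = _ := by rw [map_add, map_smul, map_smul, smul_eq_mul, smul_eq_mul]
      set c : ℂ := ⟨-f Complex.I, f 1⟩ with hcdef
      have hc1 : ‖c‖ * Real.cos c.arg = -f Complex.I := by
        rw [Complex.norm_mul_cos_arg]
      have hc2 : ‖c‖ * Real.sin c.arg = f 1 := by
        rw [Complex.norm_mul_sin_arg]
      have hf' : ∀ w : ℂ, f w = ‖c‖ * ip w (nu c.arg) := by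
        intro w
        rw [hf, ip_nu]
        linear_combination (-w.re) * hc2 + w.im * hc1
      have h1 := hf1 _ (hMK (nu c.arg))
      have h2 : f z ≤ f (M (nu c.arg)) := by
        rw [hf', hf']
        apply mul_le_mul_of_nonneg_left _ (norm_nonneg _)
        rw [← hp]
        exact hz' _
      linarith

end Pool.Agent.H161.GX
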